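import Mathlib

/-!
# Zero-cycles of degree one on del Pezzo surfaces: definitions
-/

namespace Pool.Agent.R673.LGA

/-- The data of the zero-cycles of a variety `X` over a number field `K`: the group
`Z0 = Z_0(X)` with the degree map, the set `Pl` of places `v` of `K`, the zero-cycles
`Loc v = Z_0(X_v)` over `K_v` and their degrees, `Br = Br(X)`, and the pairing
`pair (z_v)_v α = ∑_v inv_v (z_v, α)` with values in `ℚ/ℤ`. -/
structure Cycles where
  Z0 : Type
  [grp : AddCommGroup Z0]
  degree : Z0 →+ ℤ
  Pl : Type
  Loc : Pl → Type
  degLoc : ∀ v, Loc v → ℤ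
  Br : Type
  pair : (∀ v, Loc v) → Br → AddCircle (1 : ℚ)

attribute [instance] Cycles.grp

/-- `X` has a zero-cycle of degree `n`. -/
def Cycles.HasDegree (X : Cycles) (n : ℤ) : Prop := ∃ z : X.Z0, X.degree z = n

/-- There is a family of local zero-cycles of degree one orthogonal to the Brauer group. -/
def Cycles.HasFamily (X : Cycles) : Prop :=
  ∃ z : ∀ v, X.Loc v, (∀ v, X.degLoc v (z v) = 1) ∧ ∀ α, X.pair z α = 0

/-- The statement of Q1 for `X`: if there is a family of local zero-cycles of degree one orthogonal
to the Brauer group, then there is a zero-cycle of degree one. -/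
def Cycles.E1 (X : Cycles) : Prop := X.HasFamily → X.HasDegree 1

/-- `X'` is `X ×_K K'` for an extension `K'` of `K` of degree `m`: the norm (push-forward) of
zero-cycles, the place `below w` of `K` under the place `w` of `K'`, the restriction of local
zero-cycles, and the corestriction of Brauer groups, with the projection formula for the pairing. -/
structure BaseChange (X X' : Cycles) (m : ℕ) where
  norm : X'.Z0 →+ X.Z0
  degree_norm : ∀ z, X.degree (norm z) = m * X'.degree z
  below : X'.Pl → X.Pl
  res : ∀ w, X.Loc (below w) → X'.Loc w
  degree_res : ∀ w z, X'.degLoc w (res w z) = X.degLoc (below w) z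
  cores : X'.Br → X.Br
  pair_cores : ∀ (z : ∀ v, X.Loc v) (β : X'.Br),
    X'.pair (fun w => res w (z (below w))) β = X.pair z (cores β)

/-- The del Pezzo surfaces `X` over the number fields `K`: the degree (the self-intersection of the
canonical class), the rank of the Picard group of `X` over `K`, the zero-cycles (`canonical`: the
self-intersection of the canonical class is a zero-cycle of degree `deg X`), the set `Exc X` of the
exceptional curves over `K̄`, the relation that two of them do not meet, and the image `Gal X` of the
absolute Galois group of `K` in the group of permutations of `Exc X`. -/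
structure Surfaces where
  Obj : Type
  deg : Obj → ℕ
  rank : Obj → ℕ
  cyc : Obj → Cycles
  deg_pos : ∀ X, 1 ≤ deg X
  canonical : ∀ X, (cyc X).HasDegree (deg X)
  Gal : Obj → Type
  [grp : ∀ X, Group (Gal X)]
  [fin : ∀ X, Finite (Gal X)]
  Exc : Obj → Type
  [finExc : ∀ X, Finite (Exc X)]
  [act : ∀ X, MulAction (Gal X) (Exc X)]
  Disjoint : ∀ X, Exc X → Exc X → Prop

attribute [instance] Surfaces.grp Surfaces.fin Surfaces.act Surfaces.finExc

/-- `s` is a nonempty Galois stable set of pairwise disjoint exceptional curves. -/
def Surfaces.Contractible (𝒮 : Surfaces) (X : 𝒮.Obj) (s : Set (𝒮.Exc X)) : Prop :=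
  s.Nonempty ∧ (∀ (g : 𝒮.Gal X), ∀ e ∈ s, g • e ∈ s) ∧
    ∀ e ∈ s, ∀ e' ∈ s, e ≠ e' → 𝒮.Disjoint X e e'

/-- `X` is minimal over `K`: no nonempty Galois stable set of disjoint exceptional curves. -/
def Surfaces.IsMinimal (𝒮 : Surfaces) (X : 𝒮.Obj) : Prop := ¬ ∃ s, 𝒮.Contractible X s

/-- `X` is minimal over `K` with Picard group of rank one, and its exceptional curves are defined
over a Galois extension of `K` of `l`-power degree (the group `Gal X` is an `l`-group). -/
def Surfaces.IsCritical (𝒮 : Surfaces) (l : ℕ) (X : 𝒮.Obj) : Prop :=
  IsPGroup l (𝒮.Gal X) ∧ 𝒮.IsMinimal X ∧ 𝒮.rank X = 1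

/-- The group `H` is a quotient of the group `G`. -/
def IsQuotient (G H : Type) [Group G] [Group H] : Prop := ∃ f : G →* H, Function.Surjective f

/-- The standard facts on the system of all del Pezzo surfaces over number fields.
* `curve`: an exceptional curve defined over `K` is isomorphic to the projective line and has
  `K`-points.
* `ofSub X H` is the surface `X` over the field of invariants of the subgroup `H` of `Gal X`, an
  extension of `K` of degree `[Gal X : H]`; its group `Gal` is the image of `H`.
* `contract`: a nonempty Galois stable set `s` of pairwise disjoint exceptional curves can be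
  contracted over `K`, to a del Pezzo surface of degree `deg X + #s`, whose group `Gal` is a quotient
  of `Gal X`; the statement of Q1 is invariant under birational maps of smooth projective surfaces.
* `known`: the statement is known for `deg X ≥ 5` (surfaces birational to homogeneous spaces).
* `conic`: a minimal surface with Picard group of rank `≠ 1` is a conic bundle over a smooth conic
  (Iskovskikh), for which the statement is known (Salberger; Harpaz and Wittenberg). -/
structure DelPezzoSystem extends Surfaces where
  curve : ∀ (X : Obj) (e : Exc X), (∀ g : Gal X, g • e = e) → (cyc X).HasDegree 1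
  ofSub : ∀ X, Subgroup (Gal X) → Obj
  deg_sub : ∀ X H, deg (ofSub X H) = deg X
  baseChange : ∀ (X : Obj) (H : Subgroup (Gal X)),
    Nonempty (BaseChange (cyc X) (cyc (ofSub X H)) H.index)
  gal_sub : ∀ (X : Obj) (H : Subgroup (Gal X)), IsQuotient H (Gal (ofSub X H))
  contract : ∀ (X : Obj) (s : Set (Exc X)), toSurfaces.Contractible X s → ∃ Y : Obj,
    deg Y = deg X + Nat.card s ∧ IsQuotient (Gal X) (Gal Y) ∧ ((cyc Y).E1 → (cyc X).E1)
  known : ∀ X, 5 ≤ deg X → (cyc X).E1
  conic : ∀ X, toSurfaces.IsMinimal X → rank X ≠ 1 → (cyc X).E1

end Pool.Agent.R673.LGA
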