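import Pool.Agent.R673.LGA.Defs

/-!
# Zero-cycles of degree one on del Pezzo surfaces: reduction to groups of prime power order
-/

namespace Pool.Agent.R673.LGA

lemma hasDegree_one {X : Cycles} {d : ℕ} (hd : X.HasDegree d)
    (h : ∀ l : ℕ, l.Prime → l ∣ d → ∃ m : ℕ, ¬ l ∣ m ∧ X.HasDegree m) : X.HasDegree 1 := by
  obtain ⟨a, ha⟩ := Int.subgroup_cyclic X.degree.range
  have hdvd : ∀ n : ℤ, X.HasDegree n → a ∣ n := by
    rintro n ⟨z, hz⟩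
    have h1 : n ∈ X.degree.range := ⟨z, hz⟩
    rw [ha, AddSubgroup.mem_closure_singleton] at h1
    obtain ⟨k, hk⟩ := h1
    exact ⟨k, by rw [← hk, smul_eq_mul, mul_comm]⟩
  have hmem : ∀ k : ℤ, X.HasDegree (k * a) := by
    intro k
    have h1 : k * a ∈ X.degree.range := by
      rw [ha, AddSubgroup.mem_closure_singleton]
      exact ⟨k, by rw [smul_eq_mul]⟩
    exact h1
  by_cases h1 : a.natAbs = 1
  · rcases (by omega : a = 1 ∨ a = -1) with h2 | h2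
    · have h3 := hmem 1
      rw [h2] at h3
      simpa using h3
    · have h3 := hmem (-1)
      rw [h2] at h3
      simpa using h3
  · obtain ⟨l, hl, hla⟩ := Nat.exists_prime_and_dvd h1
    have hla' : (l : ℤ) ∣ a := Int.natCast_dvd.2 hla
    obtain ⟨m, hm, hz⟩ := h l hl (Int.natCast_dvd_natCast.1 (hla'.trans (hdvd _ hd)))
    exact absurd (Int.natCast_dvd_natCast.1 (hla'.trans (hdvd _ hz))) hm

variable (𝒮 : DelPezzoSystem)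

lemma isPGroup_of_surj {G H : Type} [Group G] [Group H] {l : ℕ} (hG : IsPGroup l G)
    (h : IsQuotient G H) : IsPGroup l H := by
  obtain ⟨f, hf⟩ := h
  exact hG.of_surjective f hf

/-- The statement for `X` follows from the statement over the fields of invariants of Sylow
subgroups, for the primes dividing the degree of `X`. -/
theorem of_sylow (X : 𝒮.Obj)
    (h : ∀ l : ℕ, l.Prime → l ∣ 𝒮.deg X →
      ∃ P : Sylow l (𝒮.Gal X), (𝒮.cyc (𝒮.ofSub X P)).E1) : (𝒮.cyc X).E1 := by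
  rintro ⟨z, hz1, hz⟩
  refine hasDegree_one (𝒮.canonical X) fun l hl hld => ?_
  obtain ⟨P, hP⟩ := h l hl hld
  obtain ⟨T⟩ := 𝒮.baseChange X P
  have : Fact l.Prime := ⟨hl⟩
  refine ⟨(P : Subgroup (𝒮.Gal X)).index, P.not_dvd_index, ?_⟩
  obtain ⟨x, hx⟩ := hP ⟨fun w => T.res w (z (T.below w)),
    fun w => by rw [T.degree_res, hz1], fun β => (T.pair_cores z β).trans (hz _)⟩
  exact ⟨T.norm x, by rw [T.degree_norm, hx, mul_one]⟩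

/-- one prime -/
lemma of_sylow_prime {l : ℕ} (hl : l.Prime) (X : 𝒮.Obj)
    (hX : ∀ q : ℕ, q.Prime → q ∣ 𝒮.deg X → q = l)
    (h : ∀ Y : 𝒮.Obj, 𝒮.deg Y = 𝒮.deg X → IsPGroup l (𝒮.Gal Y) → (𝒮.cyc Y).E1) :
    (𝒮.cyc X).E1 := by
  refine of_sylow 𝒮 X fun q hq hqd => ?_
  obtain rfl := hX q hq hqd
  have : Fact q.Prime := ⟨hq⟩
  let P : Sylow q (𝒮.Gal X) := default
  exact ⟨P, h _ (𝒮.deg_sub X P) (isPGroup_of_surj P.isPGroup' (𝒮.gal_sub X P))⟩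

/-- Contraction: either there is a fixed exceptional curve or at least two curves are contracted. -/
lemma contraction {l : ℕ} {X : 𝒮.Obj} (hG : IsPGroup l (𝒮.Gal X)) (hmin : ¬ 𝒮.IsMinimal X)
    (h : ∀ Y : 𝒮.Obj, 𝒮.deg X + 2 ≤ 𝒮.deg Y → IsPGroup l (𝒮.Gal Y) → (𝒮.cyc Y).E1) :
    (𝒮.cyc X).E1 := by
  rw [Surfaces.IsMinimal, not_not] at hmin
  obtain ⟨s, hs⟩ := hmin
  obtain ⟨Y, hY, hf, hE⟩ := 𝒮.contract X s hs
  obtain ⟨e, he⟩ := hs.1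
  by_cases hfix : ∀ g : 𝒮.Gal X, g • e = e
  · exact fun _ => 𝒮.curve X e hfix
  · push Not at hfix
    obtain ⟨g, hg⟩ := hfix
    have : Nontrivial s :=
      ⟨⟨⟨e, he⟩, ⟨g • e, hs.2.1 g e he⟩, fun h => hg (congrArg Subtype.val h).symm⟩⟩
    have h2 : 1 < Nat.card s := Finite.one_lt_card
    exact hE (h Y (by omega) (isPGroup_of_surj hG hf))

/-- Cubic surfaces, `l = 3`. -/
lemma cubic_pgroup (h : ∀ X : 𝒮.Obj, 𝒮.deg X = 3 → 𝒮.IsCritical 3 X → (𝒮.cyc X).E1)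
    (X : 𝒮.Obj) (hX : 𝒮.deg X = 3) (hG : IsPGroup 3 (𝒮.Gal X)) : (𝒮.cyc X).E1 := by
  by_cases hmin : 𝒮.IsMinimal X
  · by_cases hr : 𝒮.rank X = 1
    · exact h X hX ⟨hG, hmin, hr⟩
    · exact 𝒮.conic X hmin hr
  · exact contraction 𝒮 hG hmin fun Y hY _ => 𝒮.known Y (by omega)

/-- Surfaces of degree `4`, `l = 2`. -/
lemma four_pgroup (h : ∀ X : 𝒮.Obj, 𝒮.deg X = 4 → 𝒮.IsCritical 2 X → (𝒮.cyc X).E1)
    (X : 𝒮.Obj) (hX : 𝒮.deg X = 4) (hG : IsPGroup 2 (𝒮.Gal X)) : (𝒮.cyc X).E1 := by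
  by_cases hmin : 𝒮.IsMinimal X
  · by_cases hr : 𝒮.rank X = 1
    · exact h X hX ⟨hG, hmin, hr⟩
    · exact 𝒮.conic X hmin hr
  · exact contraction 𝒮 hG hmin fun Y hY _ => 𝒮.known Y (by omega)

/-- Surfaces of degree `2`, `l = 2`. -/
lemma two_pgroup (h4 : ∀ X : 𝒮.Obj, 𝒮.deg X = 4 → 𝒮.IsCritical 2 X → (𝒮.cyc X).E1)
    (h : ∀ X : 𝒮.Obj, 𝒮.deg X = 2 → 𝒮.IsCritical 2 X → (𝒮.cyc X).E1)
    (X : 𝒮.Obj) (hX : 𝒮.deg X = 2) (hG : IsPGroup 2 (𝒮.Gal X)) : (𝒮.cyc X).E1 := by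
  by_cases hmin : 𝒮.IsMinimal X
  · by_cases hr : 𝒮.rank X = 1
    · exact h X hX ⟨hG, hmin, hr⟩
    · exact 𝒮.conic X hmin hr
  · refine contraction 𝒮 hG hmin fun Y hY hGY => ?_
    by_cases h5 : 𝒮.deg Y = 4
    · exact four_pgroup 𝒮 h4 Y h5 hGY
    · exact 𝒮.known Y (by omega)

theorem main_cubic : (∀ X : 𝒮.Obj, 𝒮.deg X = 3 → (𝒮.cyc X).E1) ↔
    ∀ X : 𝒮.Obj, 𝒮.deg X = 3 → 𝒮.IsCritical 3 X → (𝒮.cyc X).E1 := by
  refine ⟨fun h X hX _ => h X hX, fun h X hX => ?_⟩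
  refine of_sylow_prime 𝒮 Nat.prime_three X (fun q hq hqd => ?_)
    fun Y hY hG => cubic_pgroup 𝒮 h Y (hY.trans hX) hG
  rw [hX] at hqd
  exact (Nat.prime_dvd_prime_iff_eq hq Nat.prime_three).1 hqd

theorem main_four : (∀ X : 𝒮.Obj, 𝒮.deg X = 4 → (𝒮.cyc X).E1) ↔
    ∀ X : 𝒮.Obj, 𝒮.deg X = 4 → 𝒮.IsCritical 2 X → (𝒮.cyc X).E1 := by
  refine ⟨fun h X hX _ => h X hX, fun h X hX => ?_⟩
  refine of_sylow_prime 𝒮 Nat.prime_two X (fun q hq hqd => ?_)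
    fun Y hY hG => four_pgroup 𝒮 h Y (hY.trans hX) hG
  rw [hX] at hqd
  have h2 : q ∣ 2 ^ 2 := hqd
  exact (Nat.prime_dvd_prime_iff_eq hq Nat.prime_two).1 (hq.dvd_of_dvd_pow h2)

theorem main_all : (∀ X : 𝒮.Obj, (𝒮.cyc X).E1) ↔
    (∀ X : 𝒮.Obj, 𝒮.deg X = 2 → 𝒮.IsCritical 2 X → (𝒮.cyc X).E1) ∧
    (∀ X : 𝒮.Obj, 𝒮.deg X = 3 → 𝒮.IsCritical 3 X → (𝒮.cyc X).E1) ∧
    (∀ X : 𝒮.Obj, 𝒮.deg X = 4 → 𝒮.IsCritical 2 X → (𝒮.cyc X).E1) := by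
  refine ⟨fun h => ⟨fun X _ _ => h X, fun X _ _ => h X, fun X _ _ => h X⟩, ?_⟩
  rintro ⟨h2, h3, h4⟩ X
  have hpos := 𝒮.deg_pos X
  by_cases h5 : 5 ≤ 𝒮.deg X
  · exact 𝒮.known X h5
  · rcases (by omega : 𝒮.deg X = 1 ∨ 𝒮.deg X = 2 ∨ 𝒮.deg X = 3 ∨ 𝒮.deg X = 4) with
      hX | hX | hX | hX
    · refine of_sylow 𝒮 X fun l hl hld => ?_
      rw [hX] at hld
      exact absurd (Nat.dvd_one.1 hld) hl.ne_one
    · refine of_sylow_prime 𝒮 Nat.prime_two X (fun q hq hqd => ?_)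
        fun Y hY hG => two_pgroup 𝒮 h4 h2 Y (hY.trans hX) hG
      rw [hX] at hqd
      exact (Nat.prime_dvd_prime_iff_eq hq Nat.prime_two).1 hqd
    · exact (main_cubic 𝒮).2 h3 X hX
    · exact (main_four 𝒮).2 h4 X hX

end Pool.Agent.R673.LGA
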